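import Pool.Agent.Y120.A.All

/-!
# The modular Schanuel conjecture with derivatives: windows of algebraic invariants of bounded degree

Let `j` be the modular invariant and let `z_1, …, z_k` be points of the upper half-plane for which the numbers
`α_i = j(z_i)` are algebraic. If the `z_i` are not CM points and pairwise not equivalent under `GL_2^+(ℚ)`, the conjecture
predicts that the `3 k` numbers `z_i`, `j'(z_i)`, `j''(z_i)` are algebraically independent.

We prove that there is an absolute constant `G₀` such that for all `G ≥ G₀` and all `q`, `k`, `m`, `d`, `δ`, `A` there is `E`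
with the following property. Let `ξ` be **any algebraic number** of degree at most `m` (not necessarily an integer), which
is the zero of a polynomial with integral coefficients of absolute value at most `|ξ|^A`, and let `(H + 2)^E ≤ |ξ|`. Then for
all complex numbers `w_1, …, w_q` there is a set `S` of **at most `q + 2`** of the numbers `1, …, H` such that for **all** distinct
`u_1, …, u_k` in `{1, …, H}` outside `S` and **all** points `z_i` with `j(z_i) = ξ - G u_i` every relation of degree at most `δ`
between the numbers `z_i`, `j'(z_i)`, `j''(z_i)`, with coefficients which are polynomials in `2 π i, w_1, …, w_q` over a number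
field of degree at most `d` (any number field, it may contain `ξ`), is trivial: the polynomial is zero after the
substitution of the numbers `2 π i, w_1, …, w_q`. If these are algebraically independent, there is no relation of degree `≤ δ`
between these numbers and the `3 k` numbers.

In `MP_f58a57_nt.DistinctWindows` the `α_i` are arbitrary distinct rational integers of a short interval.

Proof. At `X = 1/j(z)`, `Im z` large, `2 π i z = log X + G(X)/F(X)` with the G-functions `F`, `G` of the hypergeometric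
equation of `j`, and `j'`, `j''` are polynomials in `2 π i`, `j`, `F`, `X F'`. The theorem of `Pool.Agent.Y916.Af` (Siegel's
method at `1/ξ` for the shifted G-functions) says that outside at most `q + 2` shifts all relations between the values
and the logarithms come from the functional relations; the functional relations between `F`, `G` and their derivatives
are generated by the Wronskian, by analytic continuation around the elliptic points. The points with `|j(z)|` large are
equivalent under `SL_2(ℤ)` to points with large imaginary part.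
-/

set_option autoImplicit false

namespace Pool.Agent.Results.MP_ede373_nt.AlgebraicWindows

/-- the normalised Eisenstein series of weight `4` -/
noncomputable def E4 (τ : ℂ) : ℂ :=
  1 + 240 * ∑' m : ℕ, ((ArithmeticFunction.sigma 3 (m + 1) : ℕ) : ℂ) *
    Complex.exp (2 * (Real.pi : ℂ) * Complex.I * ((m : ℂ) + 1) * τ)

/-- the normalised Eisenstein series of weight `6` -/
noncomputable def E6 (τ : ℂ) : ℂ :=
  1 - 504 * ∑' m : ℕ, ((ArithmeticFunction.sigma 5 (m + 1) : ℕ) : ℂ) *
    Complex.exp (2 * (Real.pi : ℂ) * Complex.I * ((m : ℂ) + 1) * τ)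

/-- the modular invariant `j = q⁻¹ + 744 + 196884 q + ⋯` -/
noncomputable def J (τ : ℂ) : ℂ := 1728 * E4 τ ^ 3 / (E4 τ ^ 3 - E6 τ ^ 2)

/-- the numbers `z`, `j'(z)`, `j''(z)` -/
noncomputable def numbers (z : ℂ) : Fin 3 → ℂ := ![z, deriv J z, deriv (deriv J) z]

/-- `ξ` is a zero of a polynomial of degree at most `m` with integral coefficients of absolute value at most `|ξ|^A`. -/
def Height (m A : ℕ) (ξ : ℂ) : Prop :=
  ∃ p : Polynomial ℤ, p ≠ 0 ∧ p.natDegree ≤ m ∧ (∀ j, |(p.coeff j : ℝ)| ≤ ‖ξ‖ ^ A) ∧ Polynomial.aeval ξ p = 0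

/-- The numbers `2 π i, w_1, …, w_q` and `numbers (z_1), …, numbers (z_k)`. -/
noncomputable def values {q k : ℕ} (w : Fin q → ℂ) (z : Fin k → ℂ) : Option (Fin q) ⊕ Fin k × Fin 3 → ℂ :=
  Sum.elim (fun o => o.elim (2 * Real.pi * Complex.I) w) fun v => numbers (z v.1) v.2

/-- The numbers `2 π i, w_1, …, w_q` and `3 k` variables. -/
noncomputable def generic {q k : ℕ} (w : Fin q → ℂ) :
    Option (Fin q) ⊕ Fin k × Fin 3 → MvPolynomial (Fin k × Fin 3) ℂ :=
  Sum.elim (fun o => MvPolynomial.C (o.elim (2 * Real.pi * Complex.I) w)) MvPolynomial.X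

lemma gen_eval {q k : ℕ} (K : IntermediateField ℚ ℂ) (w : Fin q → ℂ) (u : Fin k × Fin 3 → ℂ)
    (P : MvPolynomial (Option (Fin q) ⊕ Fin k × Fin 3) K) :
    MvPolynomial.eval u (MvPolynomial.aeval (generic (k := k) w) P) =
      MvPolynomial.aeval (Sum.elim (Pool.Agent.Y120.K.wo w) u) P := by
  have h2 : ((MvPolynomial.aeval u : MvPolynomial (Fin k × Fin 3) ℂ →ₐ[ℂ] ℂ).restrictScalars K).comp
      (MvPolynomial.aeval (generic (k := k) w) : MvPolynomial (Option (Fin q) ⊕ Fin k × Fin 3) K →ₐ[K] MvPolynomial (Fin k × Fin 3) ℂ)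
      = MvPolynomial.aeval (Sum.elim (Pool.Agent.Y120.K.wo w) u) := by
    apply MvPolynomial.algHom_ext
    intro v
    rw [AlgHom.comp_apply, MvPolynomial.aeval_X, MvPolynomial.aeval_X, AlgHom.restrictScalars_apply]
    rcases v with o | v
    · rw [generic, Sum.elim_inl, Sum.elim_inl, MvPolynomial.aeval_C]
      rcases o with _ | o <;> rfl
    · rw [generic, Sum.elim_inr, Sum.elim_inr, MvPolynomial.aeval_X]
  rw [← h2, AlgHom.comp_apply, AlgHom.restrictScalars_apply]
  rfl

lemma J_eq : J = Pool.Agent.TH21.MS.jj := by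
  have h4 : E4 = Pool.Agent.TH21.MS.E4 := funext Pool.Agent.Y120.J.E4_same
  have h6 : E6 = Pool.Agent.TH21.MS.E6 := funext Pool.Agent.Y120.J.E6_same
  funext τ
  unfold J Pool.Agent.TH21.MS.jj
  rw [h4, h6]

lemma values_eq {q k : ℕ} (w : Fin q → ℂ) (z : Fin k → ℂ) :
    (Sum.elim (Pool.Agent.Y120.K.wo w) fun v : Fin k × Fin 3 => Pool.Agent.Y120.J.jt (z v.1) v.2) = values w z := by
  unfold values
  funext v
  rcases v with o | v
  · rw [Sum.elim_inl, Sum.elim_inl]
    rcases o with _ | o <;> rfl
  · rw [Sum.elim_inr, Sum.elim_inr]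
    unfold numbers Pool.Agent.Y120.J.jt
    rw [J_eq]

/-- There is `G₀` such that for all `G ≥ G₀` and all `q`, `k`, `m`, `d`, `δ`, `A` there is `E` such that for all `H`, all
algebraic `ξ` with `Height m A ξ` and `(H + 2)^E ≤ |ξ|` and all `w_1, …, w_q` there is a set `S` of at most `q + 2` numbers
such that for all distinct `u_1, …, u_k` in `{1, …, H}` outside `S` and all `z_i` with `j(z_i) = ξ - G u_i` every polynomial `P` of
degree at most `δ` over a number field `K` of degree at most `d` which vanishes at `2 π i, w_1, …, w_q` and the `3 k` numbers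
of the `z_i` is zero after the substitution of `2 π i, w_1, …, w_q`. -/
theorem result : ∃ G₀ : ℕ, 1 ≤ G₀ ∧ ∀ G : ℕ, G₀ ≤ G → ∀ q k m d δ A : ℕ, ∃ E : ℕ, ∀ (H : ℕ) (ξ : ℂ),
    ((H : ℝ) + 2) ^ E ≤ ‖ξ‖ → Height m A ξ → ∀ w : Fin q → ℂ, ∃ S : Finset ℕ, S.card ≤ q + 2 ∧
    ∀ u : Fin k → ℕ, Function.Injective u → (∀ i, 1 ≤ u i ∧ u i ≤ H ∧ u i ∉ S) →
    ∀ z : Fin k → ℂ, (∀ i, 0 < (z i).im ∧ J (z i) = ξ - ((G * u i : ℕ) : ℂ)) →
    ∀ K : IntermediateField ℚ ℂ, FiniteDimensional ℚ K → Module.finrank ℚ K ≤ d →
    ∀ P : MvPolynomial (Option (Fin q) ⊕ Fin k × Fin 3) K, P.totalDegree ≤ δ →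
      MvPolynomial.aeval (values w z) P = 0 → MvPolynomial.aeval (generic (k := k) w) P = 0 := by
  obtain ⟨G₀, hG₀, h⟩ := Pool.Agent.Y120.A.winJ Pool.Agent.Y120.A.hvcj Pool.Agent.Y120.A.hirr
  refine ⟨G₀, hG₀, fun G hG q k m d δ A => ?_⟩
  obtain ⟨E, hE⟩ := h G hG q k m d δ A
  refine ⟨E, fun H ξ hξ hHt w => ?_⟩
  obtain ⟨S, hS, hS'⟩ := hE H ξ hξ hHt w
  refine ⟨S, hS, fun u hu hub z hz K hK hKd P hP hP0 => ?_⟩
  rw [← values_eq] at hP0
  have h1 := hS' u hu hub (fun i => ⟨z i, (hz i).1⟩) (fun i => by
    have h1 := (hz i).2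
    rw [J_eq] at h1
    exact h1) K hK hKd P hP hP0
  refine MvPolynomial.funext fun y => ?_
  rw [map_zero, gen_eval]
  exact h1 y

end Pool.Agent.Results.MP_ede373_nt.AlgebraicWindows
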