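import Pool.Agent.Y776.Cv.Comp
import Pool.Agent.Y771.KF.MSP

/-!
# The modular Schanuel conjecture with derivatives: arbitrary analytic arguments

Let `τ` be an arbitrary analytic function on a connected open set `U` with values in the upper half-plane, which is not
constant, and let `s_1, …, s_p` be positive real numbers which are linearly independent over `ℚ` (for instance `p = 1`,
`s_1 = 1`). For the points `s_k τ(z)` of the upper half-plane the modular Schanuel conjecture with derivatives predicts
that, in general, at least `3 p` of the numbers `s_k τ(z)`, `j(s_k τ(z))`, `j'(s_k τ(z))`, `j''(s_k τ(z))` are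
algebraically independent, and Bertolin's conjecture adds the `p` numbers `exp(2 π i s_k τ(z))`. We show that all but
one of the `4 p + 1` numbers

  `τ(z)`, `exp(-2 π i s_k τ(z))`, `j(s_k τ(z))`, `j'(s_k τ(z))`, `j''(s_k τ(z))`

do not satisfy any approximate relation of bounded degree and of height `T^A`, with the exception of `C T^ε` points `z`
of height at most `T`, for all number fields of degree at most `m` together; the number which is left out does not depend
on `z`. In particular at least `3 p` of the `4 p` numbers of the conjecture have this property. The same is proved for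
`n` functions `τ_j` (equal or different) at the `n`-tuples `(z_1, …, z_n)`, with `C T^ε N^(n-1)` exceptions: for the
`∑ p_j` points `s_(jk) τ_j(z_j)` of the upper half-plane all but `n` of the `∑ (4 p_j + 1)` numbers are considered. The
coefficients of the relations are combinations of arbitrary complex numbers `ξ_1, …, ξ_g`, for instance of the powers of
`π` and of monomials in the `s_k`.
-/

set_option autoImplicit false

open NumberField

namespace Pool.Agent.Results.MP_ede373_nt.AnalyticArguments

/-- The normalised Eisenstein series of weight `4`. -/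
noncomputable def E4 (τ : ℂ) : ℂ :=
  1 + 240 * ∑' m : ℕ, ((ArithmeticFunction.sigma 3 (m + 1) : ℕ) : ℂ) *
    Complex.exp (2 * (Real.pi : ℂ) * Complex.I * τ) ^ (m + 1)

/-- The normalised Eisenstein series of weight `6`. -/
noncomputable def E6 (τ : ℂ) : ℂ :=
  1 - 504 * ∑' m : ℕ, ((ArithmeticFunction.sigma 5 (m + 1) : ℕ) : ℂ) *
    Complex.exp (2 * (Real.pi : ℂ) * Complex.I * τ) ^ (m + 1)

/-- The modular invariant `j = q⁻¹ + 744 + 196884 q + ⋯`. -/
noncomputable def j (τ : ℂ) : ℂ := 1728 * E4 τ ^ 3 / (E4 τ ^ 3 - E6 τ ^ 2)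

/-- A nonconstant analytic function on a connected open set with values in the upper half-plane, and positive numbers
which are linearly independent over `ℚ`. -/
structure Argument (U : Set ℂ) (τ : ℂ → ℂ) {p : ℕ} (s : Fin p → ℝ) : Prop where
  isOpen : IsOpen U
  isPreconnected : IsPreconnected U
  nonempty : U.Nonempty
  analytic : AnalyticOnNhd ℂ τ U
  im_pos : ∀ z ∈ U, 0 < (τ z).im
  nonconstant : ∀ c : ℂ, ∃ z ∈ U, τ z ≠ c
  s_pos : ∀ k, 0 < s k
  s_independent : ∀ c : Fin p → ℤ, ∑ k, (c k : ℝ) * s k = 0 → c = 0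

/-- The names of the functions. -/
inductive Name (p : ℕ) : Type
  | tau : Name p
  | nome : Fin p → Name p
  | j : Fin p → Name p
  | dj : Fin p → Name p
  | ddj : Fin p → Name p

/-- The values `τ(z)`, `exp(-2 π i s_k τ(z))`, `j(s_k τ(z))`, `j'(s_k τ(z))`, `j''(s_k τ(z))` (complex derivatives). -/
noncomputable def value (τ : ℂ → ℂ) {p : ℕ} (s : Fin p → ℝ) (z : ℂ) : Name p → ℂ
  | Name.tau => τ z
  | Name.nome k => Complex.exp (-(2 * (Real.pi : ℂ) * Complex.I * ((s k : ℂ) * τ z)))
  | Name.j k => j ((s k : ℂ) * τ z)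
  | Name.dj k => deriv j ((s k : ℂ) * τ z)
  | Name.ddj k => deriv (deriv j) ((s k : ℂ) * τ z)

/-- The elements of the number field `F` with image in `K` which are quotients of two integers of `F` all of whose
conjugates have absolute value at most `T`. -/
def Points (F : Type) [Field F] [NumberField F] (ι : F →+* ℂ) (K : Set ℂ) (T : ℝ) : Set F :=
  {x | ι x ∈ K ∧ ∃ a b : 𝓞 F, b ≠ 0 ∧ (∀ φ : F →+* ℂ, ‖φ a‖ ≤ T ∧ ‖φ b‖ ≤ T) ∧ x = a / b}

/-- The `n`-tuples `x` of points of `F` for which there is a polynomial `P` of degree at most `d` in each variable, with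
coefficients of the form `∑ ξ_i ι(c_i)`, where the `c_i` are integers of `F` all of whose conjugates have absolute value
at most `T ^ A`, such that the value of `P` at the numbers `v j (ι (x j)) i` is at most `T ^ (-B)` times the absolute
value of some nonzero coefficient of `P`. -/
def Exceptional (n d : ℕ) {g : ℕ} {J : Fin n → Type} (v : ∀ j, ℂ → J j → ℂ) (F : Type) [Field F] [NumberField F]
    (ι : F →+* ℂ) (ξ : Fin g → ℂ) (K : Set ℂ) (A B T : ℝ) : Set (Fin n → F) :=
  {x | (∀ j, x j ∈ Points F ι K T) ∧ ∃ P : MvPolynomial (Σ j, J j) ℂ, (∀ y, P.degreeOf y ≤ d) ∧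
    (∀ s, ∃ c : Fin g → 𝓞 F, (∀ i (φ : F →+* ℂ), ‖φ (c i)‖ ≤ T ^ A) ∧ P.coeff s = ∑ i, ξ i * ι (c i)) ∧
    ∃ s₀, P.coeff s₀ ≠ 0 ∧
      ‖MvPolynomial.aeval (fun y : Σ j, J j => v y.1 (ι (x y.1)) y.2) P‖ ≤ T ^ (-B) * ‖P.coeff s₀‖}

theorem exists_name (p : ℕ) : ∃ f : Option (Fin p × Fin 4) → Name p, Function.Injective f ∧
    ∀ (τ : ℂ → ℂ) (s : Fin p → ℝ) (z : ℂ) (o : Option (Fin p × Fin 4)),
      value τ s z (f o) = o.elim (τ z) (fun q => Y771.KF.fP s q (τ z)) := by
  let f : Option (Fin p × Fin 4) → Name p := fun o => match o with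
    | none => Name.tau
    | some (k, 0) => Name.nome k
    | some (k, 1) => Name.j k
    | some (k, 2) => Name.dj k
    | some (k, 3) => Name.ddj k
  let g : Name p → Option (Fin p × Fin 4) := fun a => match a with
    | Name.tau => none
    | Name.nome k => some (k, 0)
    | Name.j k => some (k, 1)
    | Name.dj k => some (k, 2)
    | Name.ddj k => some (k, 3)
  have hg : Function.LeftInverse g f := by
    rintro (_ | ⟨k, i⟩)
    · rfl
    · fin_cases i <;> rfl
  refine ⟨f, hg.injective, ?_⟩
  rintro τ s z (_ | ⟨k, i⟩)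
  · rfl
  · fin_cases i <;> rfl

/-- For `n` arguments `(τ_j, s_(j1), …, s_(jp_j))` (equal or different) one can choose, for each `j`, all but one of the
`4 p_j + 1` functions, such that for every compact set `K` contained in all `U_j`, and all `m`, `g`, `d`, `A` and
`ε > 0` there are `B`, `C`, `T₀` such that for every number field `F` of degree at most `m`, every embedding of `F` in
`ℂ`, all complex numbers `ξ_1, …, ξ_g` and all `T ≥ T₀` the number of `n`-tuples which are exceptional for the chosen
functions is at most `C T^ε N^(n - 1)`, where `N` is the number of points. -/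
theorem result {n : ℕ} {p : Fin n → ℕ} (U : Fin n → Set ℂ) (τ : Fin n → ℂ → ℂ) (s : ∀ j, Fin (p j) → ℝ)
    (hU : ∀ j, Argument (U j) (τ j) (s j)) :
    ∃ e : ∀ j, Fin (4 * p j) → Name (p j), (∀ j, Function.Injective (e j)) ∧
      ∀ K : Set ℂ, IsCompact K → (∀ j, K ⊆ U j) → ∀ (m g d : ℕ) (A ε : ℝ), 0 < ε →
        ∃ B C T₀ : ℝ, ∀ (F : Type) [Field F] [NumberField F], Module.finrank ℚ F ≤ m → ∀ (ι : F →+* ℂ)
          (ξ : Fin g → ℂ) (T : ℝ), T₀ ≤ T →
          (Exceptional n d (fun j z k => value (τ j) (s j) z (e j k)) F ι ξ K A B T).Finite ∧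
            ((Exceptional n d (fun j z k => value (τ j) (s j) z (e j k)) F ι ξ K A B T).ncard : ℝ) ≤
              C * T ^ ε * ((Points F ι K T).ncard : ℝ) ^ (n - 1) := by
  classical
  let y : ∀ j, Option (Fin (p j) × Fin 4) → ℂ → ℂ := fun j o z =>
    o.elim (τ j z) (fun q => Y771.KF.fP (s j) q (τ j z))
  have hya : ∀ j o, AnalyticOnNhd ℂ (y j o) (U j) := by
    rintro j (_ | q) z hz
    · exact (hU j).analytic z hz
    · exact AnalyticAt.fun_comp (g := fun w => Y771.KF.fP (s j) q w) (f := τ j)
        (Y771.KF.fP_an (s j) (hU j).s_pos q (τ j z) ((hU j).im_pos z hz)) ((hU j).analytic z hz)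
  have hyi : ∀ j, Y776.Cv.FInd (U j) (y j) := by
    intro j
    have h1 : Y776.Cv.FInd {z : ℂ | 0 < z.im} (fun (o : Option (Fin (p j) × Fin 4)) (z : ℂ) =>
        o.elim z (fun q => Y771.KF.fP (s j) q z)) := Y771.KF.fP_ind (s j) (hU j).s_pos (hU j).s_independent
    exact Y776.Cv.FInd.comp (f := fun (o : Option (Fin (p j) × Fin 4)) (z : ℂ) =>
        o.elim z (fun q => Y771.KF.fP (s j) q z)) Y771.KF.preconn_H (by
      rintro (_ | q) z hz
      · exact analyticAt_id
      · exact Y771.KF.fP_an (s j) (hU j).s_pos q z hz) h1 (hU j).isOpen (hU j).isPreconnected (hU j).analytic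
      (hU j).im_pos (hU j).nonempty (hU j).nonconstant
  have hsub : ∀ j, ∃ e : Fin (4 * p j) → Option (Fin (p j) × Fin 4), Function.Injective e ∧
      ∀ t' ∈ U j, Y124.LocInd (fun k => y j (e k)) t' := fun j =>
    Y776.Cv.func_sub (hU j).isOpen (hU j).isPreconnected (hU j).nonempty (hya j) (hyi j) (by
      simp only [Fintype.card_option, Fintype.card_prod, Fintype.card_fin]
      omega)
  choose e he hL using hsub
  choose nm hnm hv' using fun j => exists_name (p j)
  have hv : ∀ j z i, value (τ j) (s j) z (nm j i) = y j i z := fun j z i => hv' j (τ j) (s j) z i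
  refine ⟨fun j k => nm j (e j k), fun j => (hnm j).comp (he j), ?_⟩
  intro K hK hKU m g d A ε hε
  obtain ⟨B, C, T₀, hC, hT₀, H⟩ := Y776.Cv.nf_genS (η := Fin g) m n d
    (fun j => (hU j).isOpen) (fun j => (hU j).isPreconnected)
    (y := fun j k => y j (e j k)) (fun j k => hya j (e j k)) (fun j => hL j) hK hKU A ε hε
  refine ⟨B, C, T₀, fun F _ _ hm ι ξ T hT => ?_⟩
  have hT0 : 0 ≤ T := by linarith
  have hP : Points F ι K T = {x : F | Y120.HtLe F T x ∧ ι x ∈ K} := by
    ext x
    constructor
    · rintro ⟨h1, a, b, hb, hab, hx⟩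
      exact ⟨⟨a, b, hb, Y120.house_le F hT0 fun φ => (hab φ).1, Y120.house_le F hT0 fun φ => (hab φ).2, hx⟩, h1⟩
    · rintro ⟨⟨a, b, hb, ha, hb', hx⟩, h1⟩
      exact ⟨h1, a, b, hb, fun φ => ⟨(Y120.house_ge F _ φ).trans ha, (Y120.house_ge F _ φ).trans hb'⟩, hx⟩
  have key := H F hm ι ξ T hT
    (Exceptional n d (fun j z k => value (τ j) (s j) z (nm j (e j k))) F ι ξ K A B T) (by
    rintro x ⟨hx, P, hPd, hPc, s₀, hs₀, hs⟩
    refine ⟨fun j => ?_, P, hPd, hPc, s₀, hs₀, ?_⟩
    · have h1 := hx j
      rw [hP] at h1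
      exact h1
    · simp only [hv] at hs
      exact hs)
  rw [hP]
  exact key

end Pool.Agent.Results.MP_ede373_nt.AnalyticArguments
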