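import Pool.Agent.Y120.J.All

/-!
# The modular Schanuel conjecture with derivatives at the points with integral modular invariant

Let `j` be the modular invariant and let `z_1, …, z_k` be points of the upper half-plane for which the numbers
`t_i = j(z_i)` are integers (of any signs). Unless `z_i` is a CM point or two of the points are equivalent under
`GL_2^+(ℚ)`, the modular Schanuel conjecture with derivatives predicts that the `3 k` numbers `z_i`, `j'(z_i)`, `j''(z_i)`
are algebraically independent.

We prove that for almost all `k`-tuples of integers `(t_1, …, t_k)` and for **all** points `z_i` with `j(z_i) = t_i` the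
`3 k` numbers do not satisfy any polynomial relation of degree at most `δ`, whatever the height of the coefficients; they
may even lie in any `ℚ`-vector space `V` of complex numbers of dimension at most `D` (for example in a number field of
degree `D`, or in the space generated by the monomials of degree `≤ δ` in given numbers like `π`, or the values of `j'` at
given CM points). In the boxes `x_i < |t_i| ≤ x_i + N` the number of the exceptional tuples is at most
`C N^(k-1) ∑ (1 + N / (x_i + N)^c)`, with `c > 0` and `C` depending only on `k`, `δ`, `D`; in `[-N, N]^k` there are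
`O(N^(k-c'))` of them, and in short boxes `N ≤ x_i^c` there are `O(N^(k-1))`.

Proof. Ramanujan's differential equations give the third order equation of `j`, and so at `X = 1/j(z)`, `Im z` large,
`E_6/E_4 = F(X)^2` and `2 π i z = log X + G(X)/F(X)` for the solutions `F`, `F log X + G` of
`(1 - 1728 X)^2 θ^2 Y = X (82944 X - 372) Y`, `F = (1 - 1728 X)^(1/4) ₂F₁(1/12, 5/12; 1; 1728 X)`. These are G-functions,
and `z`, `j'`, `j''` are rational functions of `X`, `2 π i`, `F`, `G`, `θF`, `log X`; the theorem of
`Pool.Agent.Y120.R` (Siegel's method at `1/t`, `t` an integer, with a Hermite-Padé argument for many `t` together) says that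
relations at almost all tuples are specialisations of functional relations, and there are none, by the algebraic
independence of `z`, `j`, `j'`, `j''` (Mahler). The points with `j(z)` real and large are equivalent under `SL_2(ℤ)` to points
with `Re z ∈ {0, 1/2}`, and `SL_2(ℤ)` changes the degree of a relation by a bounded factor only.
-/

set_option autoImplicit false

namespace Pool.Agent.Results.MP_ede373_nt.IntegralInvariants

/-- the normalised Eisenstein series of weight `4` -/
noncomputable def E4 (τ : ℂ) : ℂ :=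
  1 + 240 * ∑' m : ℕ, ((ArithmeticFunction.sigma 3 (m + 1) : ℕ) : ℂ) *
    Complex.exp (2 * (Real.pi : ℂ) * Complex.I * ((m : ℂ) + 1) * τ)

/-- the normalised Eisenstein series of weight `6` -/
noncomputable def E6 (τ : ℂ) : ℂ :=
  1 - 504 * ∑' m : ℕ, ((ArithmeticFunction.sigma 5 (m + 1) : ℕ) : ℂ) *
    Complex.exp (2 * (Real.pi : ℂ) * Complex.I * ((m : ℂ) + 1) * τ)

/-- the modular invariant `j = q⁻¹ + 744 + 196884 q + ⋯` -/
noncomputable def J (τ : ℂ) : ℂ := 1728 * E4 τ ^ 3 / (E4 τ ^ 3 - E6 τ ^ 2)

/-- the numbers `z`, `j'(z)`, `j''(z)` -/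
noncomputable def numbers (z : ℂ) : Fin 3 → ℂ := ![z, deriv J z, deriv (deriv J) z]

/-- For some points `z_1, …, z_k` of the upper half-plane with `j(z_i) = t_i` the `3 k` numbers `z_i`, `j'(z_i)`,
`j''(z_i)` satisfy a polynomial relation of total degree at most `δ`, not trivial, with coefficients in `V`. -/
def Exceptional (δ : ℕ) (V : Submodule ℚ ℂ) {k : ℕ} (t : Fin k → ℤ) : Prop :=
  ∃ z : Fin k → ℂ, (∀ i, 0 < (z i).im ∧ J (z i) = t i) ∧
    ∃ P : MvPolynomial (Fin k × Fin 3) ℂ, P ≠ 0 ∧ P.totalDegree ≤ δ ∧ (∀ s, P.coeff s ∈ V) ∧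
      MvPolynomial.eval (fun v => numbers (z v.1) v.2) P = 0

/-- There are `c > 0` and `C`, depending only on `k`, `δ`, `D`, such that for every `ℚ`-subspace `V` of `ℂ` of dimension
at most `D` and all `x_1, …, x_k`, `N`, at most `C N^(k-1) ∑ (1 + N / (x_i + N)^c)` of the `k`-tuples of integers with
`x_i < |t_i| ≤ x_i + N` are exceptional. -/
theorem result (k δ D : ℕ) :
    ∃ c C : ℝ, 0 < c ∧ 0 ≤ C ∧ ∀ (V : Submodule ℚ ℂ) [Module.Finite ℚ V], Module.finrank ℚ V ≤ D →
      ∀ (x : Fin k → ℕ) (N : ℕ), 1 ≤ N → ∀ S : Finset (Fin k → ℤ),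
      (∀ t ∈ S, (∀ i, (x i : ℤ) < |t i| ∧ |t i| ≤ x i + N) ∧ Exceptional δ V t) →
      (S.card : ℝ) ≤ C * (N : ℝ) ^ (k - 1) * ∑ i, (1 + N / ((x i : ℝ) + N) ^ c) := by
  have h4 : E4 = Pool.Agent.TH21.MS.E4 := funext Pool.Agent.Y120.J.E4_same
  have h6 : E6 = Pool.Agent.TH21.MS.E6 := funext Pool.Agent.Y120.J.E6_same
  have hJ : J = Pool.Agent.TH21.MS.jj := by
    funext τ
    unfold J Pool.Agent.TH21.MS.jj
    rw [h4, h6]
  obtain ⟨c, C, hc, hC, h⟩ := Pool.Agent.Y120.J.coreZ Pool.Agent.Y120.J.all_DN Pool.Agent.Y120.J.all_PT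
    Pool.Agent.Y120.J.all_FM k δ D
  refine ⟨c, C, hc, hC, ?_⟩
  intro V _ hV x N hN S hS
  refine h V hV x N hN S fun t ht => ?_
  obtain ⟨hbox, z, hz, P, hP0, hPd, hPV, hP⟩ := hS t ht
  refine ⟨hbox, fun i => ⟨z i, (hz i).1⟩, fun i => ?_, P, hP0, hPd, hPV, ?_⟩
  · have h1 := (hz i).2
    rw [hJ] at h1
    exact h1
  · have h2 : (fun v : Fin k × Fin 3 => numbers (z v.1) v.2) = fun v => Pool.Agent.Y120.J.jt (z v.1) v.2 := by
      funext v
      unfold numbers Pool.Agent.Y120.J.jt
      rw [hJ]
    rw [h2] at hP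
    exact hP

end Pool.Agent.Results.MP_ede373_nt.IntegralInvariants
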